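import Pool.Agent.Helper3.AK.Goals4

/-! MP_75608d_al, packet AK-DET: the event `Mev` forces riders (deterministic). -/

namespace Pool.Agent.Helper77.AK

open Pool.Agent.Helper3.AK Equiv

variable {n r : ℕ} {x : Fin 2 → Alt n} {g : ℕ → Letter 2} {S : Finset (Fin n)} {m : ℕ}

theorem pz_succ (x : Fin 2 → Alt n) (g : ℕ → Letter 2) (t : ℕ) (p : Fin n) :
    pz x g (t + 1) p = lett x (g t) (pz x g t p) := rfl

/-- a pass which is not single starts at a vertex visited at another time -/
theorem mult_of_not_single (hg : Red g m) (c : Pts n r) {t : ℕ} (ht : t < m)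
    {q : Fin r × Bool} (h : ¬ Single x (fun _ => 1) g m c t q) :
    ∃ s ≤ m, s ≠ t ∧ ∃ q', pz x g s (c q') = pz x g t (c q) := by
  unfold Single at h
  push Not at h
  obtain ⟨t', ht', q', hne, h1, h2⟩ := h
  unfold tail at h2
  rw [zpos_one, zpos_one, zpos_one, zpos_one] at h2
  have hsame : pz x g t' (c q') = pz x g t (c q) → t' ≠ t := by
    intro h3 h4
    subst h4
    exact hne (Prod.ext rfl (c.injective ((pz x g t').injective h3)))
  -- the opposite orientation
  have hopp : g t = flip (g t') → pz x g (t' + 1) (c q') = pz x g t (c q) → t' + 1 ≠ t := by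
    intro h3 h4 h5
    subst h5
    exact hg t' ht h3
  cases ht1 : (g t').2 <;> cases ht2 : (g t).2
  · rw [ht1, ht2] at h2
    have h3 : pz x g t' (c q') = pz x g t (c q) := h2
    exact ⟨t', ht'.le, hsame h3, q', h3⟩
  · rw [ht1, ht2] at h2
    have h3 : pz x g t' (c q') = pz x g (t + 1) (c q) := h2
    have h4 : g t = flip (g t') := Prod.ext h1.symm (by rw [ht2]; simp [Helper3.AK.flip, ht1])
    have h5 : pz x g (t' + 1) (c q') = pz x g t (c q) := by
      have h6 : g t' = flip (g t) := by rw [h4, Helper3.AK.flip_flip]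
      rw [pz_succ, h6, lett_flip, h3, pz_succ]
      simp
    exact ⟨t' + 1, ht', hopp h4 h5, q', h5⟩
  · rw [ht1, ht2] at h2
    have h5 : pz x g (t' + 1) (c q') = pz x g t (c q) := h2
    have h4 : g t = flip (g t') := Prod.ext h1.symm (by rw [ht2]; simp [Helper3.AK.flip, ht1])
    exact ⟨t' + 1, ht', hopp h4 h5, q', h5⟩
  · rw [ht1, ht2] at h2
    have h3 : pz x g (t' + 1) (c q') = pz x g (t + 1) (c q) := h2
    have h4 : g t' = g t := Prod.ext h1 (by rw [ht1, ht2])
    rw [pz_succ, pz_succ, h4] at h3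
    have h5 := (lett x (g t)).injective h3
    exact ⟨t', ht'.le, hsame h5, q', h5⟩

open Classical in
/-- at least `r` of the points are at multiple vertices -/
theorem card_mult (hg : Red g m) (c : Pts n r) (hM : Mev x (fun _ => 1) g m c) {t : ℕ}
    (ht : t < m) :
    r ≤ ((Finset.univ.map c).filter fun p => ∃ s ≤ m, s ≠ t ∧
      ∃ p' ∈ Finset.univ.map c, pz x g s p' = pz x g t p).card := by
  have h1 : ∀ i : Fin r, ∃ b : Bool, ¬ Single x (fun _ => 1) g m c t (i, b) := by
    intro i
    rcases hM t ht i with h | h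
    · exact ⟨false, h⟩
    · exact ⟨true, h⟩
  choose b hb using h1
  have h2 : (Finset.univ : Finset (Fin r)).card ≤ ((Finset.univ.map c).filter fun p =>
      ∃ s ≤ m, s ≠ t ∧ ∃ p' ∈ Finset.univ.map c, pz x g s p' = pz x g t p).card := by
    refine Finset.card_le_card_of_injOn (fun i => c (i, b i)) ?_ ?_
    · intro i _
      rw [Finset.mem_coe, Finset.mem_filter]
      refine ⟨Finset.mem_map_of_mem c (Finset.mem_univ _), ?_⟩
      obtain ⟨s, hs, hne, q', hq'⟩ := mult_of_not_single hg c ht (hb i)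
      exact ⟨s, hs, hne, c q', Finset.mem_map_of_mem c (Finset.mem_univ _), hq'⟩
    · intro i _ j _ hij
      exact congrArg Prod.fst (c.injective hij)
  simpa using h2

open Classical in
/-- the vertices visited at two different times -/
noncomputable def VV (x : Fin 2 → Alt n) (g : ℕ → Letter 2) (S : Finset (Fin n)) (m : ℕ) :
    Finset (Fin n) :=
  Finset.univ.filter fun v => ∃ s₂ ≤ m, ∃ s₁ < s₂, (∃ p ∈ S, pz x g s₁ p = v) ∧
    ∃ p ∈ S, pz x g s₂ p = v

open Classical in
theorem sum_mult_le (T : Finset ℕ) (hT : ∀ t ∈ T, t < m) :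
    ∑ t ∈ T, (S.filter fun p => ∃ s ≤ m, s ≠ t ∧ ∃ p' ∈ S, pz x g s p' = pz x g t p).card ≤
      ∑ t ∈ T, rid x g S t + (VV x g S m).card := by
  have h1 : ∀ t ∈ T, (S.filter fun p => ∃ s ≤ m, s ≠ t ∧
      ∃ p' ∈ S, pz x g s p' = pz x g t p).card ≤ rid x g S t +
      ((S.filter fun p => (∃ s ≤ m, s ≠ t ∧ ∃ p' ∈ S, pz x g s p' = pz x g t p) ∧
        ¬ rider x g S t p).image (pz x g t)).card := by
    intro t _
    rw [Finset.card_image_of_injective _ (pz x g t).injective]
    unfold rid
    refine le_trans (Finset.card_le_card ?_) (Finset.card_union_le _ _)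
    intro p hp
    rw [Finset.mem_filter] at hp
    rw [Finset.mem_union, Finset.mem_filter, Finset.mem_filter]
    by_cases h : rider x g S t p
    · exact Or.inl ⟨hp.1, h⟩
    · exact Or.inr ⟨hp.1, hp.2, h⟩
  refine (Finset.sum_le_sum h1).trans ?_
  rw [Finset.sum_add_distrib, ← Finset.card_biUnion]
  · refine Nat.add_le_add_left (Finset.card_le_card ?_) _
    intro v hv
    rw [Finset.mem_biUnion] at hv
    obtain ⟨t, ht, hv⟩ := hv
    rw [Finset.mem_image] at hv
    obtain ⟨p, hp, rfl⟩ := hv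
    rw [Finset.mem_filter] at hp
    obtain ⟨hpS, ⟨s, hs, hne, p', hp', he⟩, -⟩ := hp
    unfold VV
    rw [Finset.mem_filter]
    refine ⟨Finset.mem_univ _, ?_⟩
    rcases lt_or_gt_of_ne hne with h | h
    · exact ⟨t, (hT t ht).le, s, h, ⟨p', hp', he⟩, ⟨p, hpS, rfl⟩⟩
    · exact ⟨s, hs, t, h, ⟨p, hpS, rfl⟩, ⟨p', hp', he⟩⟩
  · have h2 : ∀ t t' : ℕ, t < t' → ∀ v, v ∈ ((S.filter fun p => (∃ s ≤ m, s ≠ t ∧
        ∃ p' ∈ S, pz x g s p' = pz x g t p) ∧ ¬ rider x g S t p).image (pz x g t)) →
        v ∉ ((S.filter fun p => (∃ s ≤ m, s ≠ t' ∧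
        ∃ p' ∈ S, pz x g s p' = pz x g t' p) ∧ ¬ rider x g S t' p).image (pz x g t')) := by
      intro t t' htt' v hv hv'
      rw [Finset.mem_image] at hv hv'
      obtain ⟨p, hp, rfl⟩ := hv
      obtain ⟨p', hp', he⟩ := hv'
      rw [Finset.mem_filter] at hp hp'
      exact hp'.2.2 ⟨t, htt', p, hp.1, he.symm⟩
    intro t _ t' _ hne
    rw [Function.onFun, Finset.disjoint_left]
    intro v hv hv'
    rcases lt_or_gt_of_ne hne with h | h
    · exact h2 t t' h v hv hv'
    · exact h2 t' t h v hv' hv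

open Classical in
/-- the second visit is not at a full vertex -/
theorem VV_subset : VV x g S m ⊆ (Finset.Ico 1 m).biUnion (fun t =>
    (S.filter fun p => rider x g S t p ∧ shal 0 x g S t p).image (pz x g t)) ∪
      S.image (pz x g m) := by
  intro v hv
  unfold VV at hv
  rw [Finset.mem_filter] at hv
  obtain ⟨-, s₂, hs₂, s₁, hs₁, hv₁, hv₂⟩ := hv
  have hex : ∃ t, (∃ s < t, ∃ p ∈ S, pz x g s p = v) ∧ ∃ p ∈ S, pz x g t p = v :=
    ⟨s₂, ⟨s₁, hs₁, hv₁⟩, hv₂⟩
  obtain ⟨t, ht⟩ : ∃ t, t = Nat.find hex := ⟨_, rfl⟩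
  have htm : t ≤ m := by
    rw [ht]
    exact (Nat.find_min' hex ⟨⟨s₁, hs₁, hv₁⟩, hv₂⟩).trans hs₂
  obtain ⟨⟨t₁, ht₁, hvt₁⟩, p, hp, hvt⟩ : (∃ s < t, ∃ p ∈ S, pz x g s p = v) ∧
      ∃ p ∈ S, pz x g t p = v := by
    rw [ht]
    exact Nat.find_spec hex
  have huniq : ∀ s < t, (∃ p ∈ S, pz x g s p = v) → s = t₁ := by
    intro s hs hvs
    by_contra hne
    rcases lt_or_gt_of_ne hne with h | h
    · rw [ht] at ht₁
      exact Nat.find_min hex ht₁ ⟨⟨s, h, hvs⟩, hvt₁⟩
    · rw [ht] at hs
      exact Nat.find_min hex hs ⟨⟨t₁, h, hvt₁⟩, hvs⟩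
  rw [Finset.mem_union]
  rcases Nat.lt_or_ge t m with h | h
  · left
    rw [Finset.mem_biUnion]
    refine ⟨t, Finset.mem_Ico.2 ⟨by omega, h⟩, ?_⟩
    rw [Finset.mem_image]
    refine ⟨p, ?_, hvt⟩
    rw [Finset.mem_filter]
    refine ⟨hp, ?_, ?_⟩
    · obtain ⟨q, hq, hqe⟩ := hvt₁
      exact ⟨t₁, ht₁, q, hq, hqe.trans hvt.symm⟩
    · refine ⟨[], le_rfl, by simp [Ok], ?_⟩
      change pz x g t p ∉ full x g S t
      rw [hvt]
      unfold full
      rw [Finset.mem_filter]
      rintro ⟨-, hfull⟩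
      have hsub : Lt x g S t v ⊆ {g t₁, flip (g (t₁ - 1)), flip (g (t - 1))} := by
        intro l hl
        unfold Lt at hl
        rw [Finset.mem_filter] at hl
        have hl2 := hl.2
        unfold Kn at hl2
        rw [Finset.mem_biUnion] at hl2
        obtain ⟨s, hs, hl3⟩ := hl2
        rw [Finset.mem_range] at hs
        rw [Finset.mem_union, Finset.mem_image, Finset.mem_image] at hl3
        rw [Finset.mem_insert, Finset.mem_insert, Finset.mem_singleton]
        rcases hl3 with ⟨p', hp', he⟩ | ⟨p', hp', he⟩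
        · have he1 := congrArg Prod.fst he
          have he2 := congrArg Prod.snd he
          simp only at he1 he2
          have := huniq s hs ⟨p', hp', he1⟩
          left
          rw [← he2, this]
        · have he1 := congrArg Prod.fst he
          have he2 := congrArg Prod.snd he
          simp only at he1 he2
          right
          rcases Nat.lt_or_ge (s + 1) t with h' | h'
          · have := huniq (s + 1) h' ⟨p', hp', he1⟩
            left
            rw [← he2, ← this]
            rfl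
          · have : s + 1 = t := by omega
            right
            rw [← he2, ← this]
            rfl
      rw [hfull] at hsub
      have hcard := Finset.card_le_card hsub
      have h3 : (({g t₁, flip (g (t₁ - 1)), flip (g (t - 1))} : Finset (Letter 2))).card ≤ 3 :=
        Finset.card_le_three
      have h4 : (Finset.univ : Finset (Letter 2)).card = 4 := rfl
      omega
  · right
    have : t = m := by omega
    rw [Finset.mem_image]
    exact ⟨p, hp, by rw [← this]; exact hvt⟩

theorem card_VV_le : (VV x g S m).card ≤ ∑ t ∈ Finset.Ico 1 m, sh 0 x g S t + S.card := by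
  classical
  refine (Finset.card_le_card VV_subset).trans ?_
  refine (Finset.card_union_le _ _).trans ?_
  refine Nat.add_le_add ?_ Finset.card_image_le
  refine Finset.card_biUnion_le.trans ?_
  refine Finset.sum_le_sum fun t _ => ?_
  refine Finset.card_image_le.trans ?_
  unfold sh
  exact (Finset.card_le_card fun a ha => by
    rw [Finset.mem_filter] at ha ⊢
    exact ha)

theorem det : S_DET := by
  classical
  intro n r m lam x g c hlam hg hM
  have hlt : ∀ b ∈ Finset.Ico 1 (m / lam), b * lam < m := by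
    intro b hb
    rw [Finset.mem_Ico] at hb
    have h1 : (b + 1) * lam ≤ m := by
      have := Nat.mul_le_mul_right lam hb.2
      exact this.trans (Nat.div_mul_le_self m lam)
    have h2 : (b + 1) * lam = b * lam + lam := by ring
    omega
  have hinj : Set.InjOn (fun b : ℕ => b * lam) (Finset.Ico 1 (m / lam) : Set ℕ) := by
    intro a _ b _ hab
    exact Nat.eq_of_mul_eq_mul_right (by omega) hab
  have h1 : r * (m / lam - 1) ≤ ∑ b ∈ Finset.Ico 1 (m / lam),
      ((Finset.univ.map c).filter fun p => ∃ s ≤ m, s ≠ b * lam ∧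
        ∃ p' ∈ Finset.univ.map c, pz x g s p' = pz x g (b * lam) p).card := by
    have h2 := Finset.card_nsmul_le_sum (Finset.Ico 1 (m / lam)) (fun b =>
      ((Finset.univ.map c).filter fun p => ∃ s ≤ m, s ≠ b * lam ∧
        ∃ p' ∈ Finset.univ.map c, pz x g s p' = pz x g (b * lam) p).card) r
      (fun b hb => card_mult hg c hM (hlt b hb))
    rw [Nat.card_Ico, smul_eq_mul] at h2
    rw [Nat.mul_comm]
    exact h2
  have h3 := sum_mult_le (x := x) (g := g) (S := Finset.univ.map c) (m := m)
    ((Finset.Ico 1 (m / lam)).image fun b => b * lam) (by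
      intro t ht
      rw [Finset.mem_image] at ht
      obtain ⟨b, hb, rfl⟩ := ht
      exact hlt b hb)
  rw [Finset.sum_image hinj, Finset.sum_image hinj] at h3
  have h4 := card_VV_le (x := x) (g := g) (S := Finset.univ.map c) (m := m)
  have h5 : (Finset.univ.map c).card = 2 * r := by
    rw [Finset.card_map, Finset.card_univ, Fintype.card_prod, Fintype.card_fin,
      Fintype.card_bool]
    ring
  rw [h5] at h4
  calc r * (m / lam - 1) ≤ _ := h1
    _ ≤ _ := h3
    _ ≤ _ := by
      rw [Nat.add_assoc]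
      exact Nat.add_le_add_left h4 _

end Pool.Agent.Helper77.AK
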